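import Pool.Agent.W910.MR.Main
import Pool.Agent.W910.MR.T_MIN

/-!
# More than `lam` reals from a subset of a singular cardinal `lam` of uncountable cofinality

From the generalized continuum hypothesis and a measurable cardinal we construct countable
transitive models `V ⊆ W` of ZFC with the same cardinals, `V` a model of the generalized continuum
hypothesis, a singular cardinal `lam` of uncountable cofinality of `V` and a subset `A` of `lam`
such that `W = V[A]` and such that `H^V(lam⁺)[A]` contains `lam⁺` reals.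
-/

set_option autoImplicit false

namespace Pool.Agent.Results.MP_fa650a_lc.CofinalityChange

open Pool.Agent.W868 Pool.Agent.W910.MR
open Cardinal

theorem result
    (gch : ∀ c : Cardinal.{0}, ℵ₀ ≤ c → (2 : Cardinal.{0}) ^ c = Order.succ c)
    (meas : ∃ (K : Type) (U : Ultrafilter K), Measures K U) :
    ∃ V W : Set ZFSet.{0}, V.Countable ∧ W.Countable ∧ IsZFC V ∧ IsZFC W ∧ GCH V ∧ V ⊆ W ∧
      (∀ α : ZFSet.{0}, α.IsOrdinal → (α ∈ V ↔ α ∈ W)) ∧
      (∀ κ, IsCard V κ ↔ IsCard W κ) ∧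
      ∃ lam A, IsSingUncof V lam ∧ A ⊆ lam ∧ A ∈ W ∧
        (∀ N, IsZFC N → V ⊆ N → A ∈ N → W ⊆ N) ∧
        ∃ μ, IsNextCard V lam μ ∧ IsNextCard W lam μ ∧ ∃ R ∈ W,
          (∀ r ∈ R, r ⊆ ZFSet.omega ∧ r ∈ Adjoin (HPlus V lam) A) ∧ ∃ F ∈ W, IsInj μ R F :=
  main T_MIN.main gch meas

end Pool.Agent.Results.MP_fa650a_lc.CofinalityChange
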